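import Mathlib

/-!
# A midpoint formula of Abel-Plana type
-/

set_option autoImplicit false

namespace Pool.Agent.Q280.KN

open Filter Topology MeasureTheory

/-- the function `sin (π s) / s` -/
noncomputable def qs0 : ℂ → ℂ := dslope (fun s : ℂ => Complex.sin (Real.pi * s)) 0

theorem sin_cd : Differentiable ℂ (fun s : ℂ => Complex.sin (Real.pi * s)) :=
  Complex.differentiable_sin.comp (differentiable_id.const_mul _)

theorem qs0_ne {s : ℂ} (hs : |s.re| < 1) : qs0 s ≠ 0 := by
  unfold qs0
  by_cases h : s = 0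
  · subst h
    rw [dslope_same]
    have h1 : HasDerivAt (fun s : ℂ => Complex.sin (Real.pi * s))
        (Complex.cos (Real.pi * 0) * (Real.pi * 1)) 0 := by
      exact (Complex.hasDerivAt_sin _).comp (0 : ℂ) ((hasDerivAt_id (0:ℂ)).const_mul (Real.pi : ℂ))
    rw [h1.deriv]
    simp [Real.pi_ne_zero]
  · rw [dslope_of_ne _ h, slope_def_field]
    simp only [mul_zero, Complex.sin_zero, sub_zero]
    refine div_ne_zero (fun h0 => h ?_) h
    rw [Complex.sin_eq_zero_iff] at h0
    obtain ⟨k, hk⟩ := h0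
    have h1 : s = k := mul_left_cancel₀ (Complex.ofReal_ne_zero.2 Real.pi_ne_zero) (by rw [hk]; ring)
    have h2 : |(k:ℝ)| < 1 := by
      rw [h1] at hs
      simpa using hs
    have h3 : k = 0 := by
      have : |k| < 1 := by exact_mod_cast h2
      exact Int.abs_lt_one_iff.1 this
    rw [h1, h3]
    simp

/-- `π cot π s` -/
noncomputable def kt (s : ℂ) : ℂ := Real.pi * (Complex.cos (Real.pi * s) / Complex.sin (Real.pi * s))

/-- the function without pole -/
noncomputable def ff (G : ℂ → ℂ) (s : ℂ) : ℂ := dslope G 0 s * (Real.pi * Complex.cos (Real.pi * s) / qs0 s)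

theorem ff_eq (G : ℂ → ℂ) {s : ℂ} (hs : s ≠ 0) : ff G s = (G s - G 0) * kt s := by
  unfold ff kt qs0
  rw [dslope_of_ne _ hs, dslope_of_ne _ hs, slope_def_field, slope_def_field]
  simp only [mul_zero, Complex.sin_zero, sub_zero]
  rw [div_div_eq_mul_div]
  field_simp

/-- the vertical lines -/
theorem kt_half (t : ℝ) : kt (1 / 2 + t * Complex.I) = -Complex.I * Real.pi * Real.tanh (Real.pi * t) := by
  have h1 : (Real.pi : ℂ) * (1 / 2 + t * Complex.I) = (Real.pi * t : ℝ) * Complex.I + Real.pi / 2 := by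
    push_cast; ring
  unfold kt
  rw [h1, Complex.cos_add_pi_div_two, Complex.sin_add_pi_div_two, Complex.sin_mul_I, Complex.cos_mul_I,
    Real.tanh_eq_sinh_div_cosh]
  push_cast
  ring

theorem kt_nhalf (t : ℝ) : kt (-(1 / 2) + t * Complex.I) = -Complex.I * Real.pi * Real.tanh (Real.pi * t) := by
  have h1 : (Real.pi : ℂ) * (-(1 / 2) + t * Complex.I) = (Real.pi * t : ℝ) * Complex.I - Real.pi / 2 := by
    push_cast; ring
  unfold kt
  rw [h1, Complex.cos_sub_pi_div_two, Complex.sin_sub_pi_div_two, Complex.sin_mul_I, Complex.cos_mul_I,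
    Real.tanh_eq_sinh_div_cosh]
  push_cast
  ring

theorem tanh_eq (x : ℝ) : Real.tanh x = 1 - 2 / (Real.exp (2 * x) + 1) := by
  have h : 0 < Real.exp x := Real.exp_pos x
  have h2 : Real.exp (2 * x) = Real.exp x ^ 2 := by rw [← Real.exp_nat_mul]; norm_num
  rw [Real.tanh_eq_sinh_div_cosh, Real.sinh_eq, Real.cosh_eq, h2, Real.exp_neg]
  field_simp
  ring

theorem sin_lower (a b : ℝ) : (Real.exp |b| - Real.exp (-|b|)) / 2 ≤ ‖Complex.sin (a + b * Complex.I)‖ := by
  have h1 : ∀ c : ℝ, ‖Complex.exp (c * Complex.I * (a + b * Complex.I))‖ = Real.exp (-(c * b)) := by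
    intro c
    rw [Complex.norm_exp]
    congr 1
    simp
  have h2 := h1 1
  have h3 := h1 (-1)
  rw [Complex.sin, norm_div, norm_mul, Complex.norm_I, mul_one, Complex.norm_two]
  apply div_le_div_of_nonneg_right _ (by norm_num)
  push_cast at h2 h3
  rw [show (1 : ℂ) * Complex.I * (a + b * Complex.I) = (a + b * Complex.I) * Complex.I by ring] at h2
  rw [show (-1 : ℂ) * Complex.I * (a + b * Complex.I) = -(a + b * Complex.I) * Complex.I by ring] at h3
  rcases le_total 0 b with hb | hb
  · rw [abs_of_nonneg hb]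
    refine le_trans ?_ (norm_sub_norm_le _ _)
    rw [h2, h3]
    simp
  · rw [abs_of_nonpos hb, norm_sub_rev]
    refine le_trans ?_ (norm_sub_norm_le _ _)
    rw [h2, h3]
    simp

theorem kt_top {u T : ℝ} (hT : 1 ≤ T) :
    ‖kt (u + T * Complex.I) + Real.pi * Complex.I‖ ≤ 4 * Real.pi * Real.exp (-(2 * Real.pi * T)) ∧
    ‖kt (u - T * Complex.I) - Real.pi * Complex.I‖ ≤ 4 * Real.pi * Real.exp (-(2 * Real.pi * T)) := by
  have hpi := Real.pi_gt_three
  have hx : 1 ≤ Real.pi * T := by nlinarith
  have e0 : 0 < Real.exp (Real.pi * T) := Real.exp_pos _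
  have e1 : Real.exp (-(Real.pi * T)) ≤ Real.exp (Real.pi * T) / 2 := by
    have h1 : Real.exp (-(Real.pi * T)) * Real.exp (2 * (Real.pi * T)) = Real.exp (Real.pi * T) := by
      rw [← Real.exp_add]; ring_nf
    have h2 : 2 ≤ Real.exp (2 * (Real.pi * T)) := by
      have := Real.add_one_le_exp (2 * (Real.pi * T))
      linarith
    have h3 : 0 < Real.exp (-(Real.pi * T)) := Real.exp_pos _
    nlinarith
  have key : ∀ w : ℂ, Real.exp (Real.pi * T) / 4 ≤ ‖Complex.sin w‖ → ∀ x : ℂ, ‖x‖ = Real.exp (-(Real.pi * T)) →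
      ‖Real.pi * (x / Complex.sin w)‖ ≤ 4 * Real.pi * Real.exp (-(2 * Real.pi * T)) := by
    intro w hw x hx
    rw [norm_mul, norm_div, hx, Complex.norm_real, Real.norm_of_nonneg (by linarith)]
    have h1 : Real.exp (-(Real.pi * T)) / ‖Complex.sin w‖ ≤ Real.exp (-(Real.pi * T)) / (Real.exp (Real.pi * T) / 4) := by
      apply div_le_div_of_nonneg_left (Real.exp_pos _).le (by positivity) hw
    have h2 : Real.exp (-(Real.pi * T)) / (Real.exp (Real.pi * T) / 4) = 4 * Real.exp (-(2 * Real.pi * T)) := by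
      rw [div_div_eq_mul_div, mul_comm, mul_div_assoc, ← Real.exp_sub]
      ring_nf
    rw [h2] at h1
    calc _ ≤ Real.pi * (4 * Real.exp (-(2 * Real.pi * T))) := by gcongr
      _ = _ := by ring
  have hs : ∀ b : ℝ, |b| = Real.pi * T → Real.exp (Real.pi * T) / 4 ≤ ‖Complex.sin ((Real.pi * u : ℝ) + b * Complex.I)‖ := by
    intro b hb
    refine le_trans ?_ (sin_lower _ _)
    rw [hb]
    linarith
  have hne : ∀ b : ℝ, |b| = Real.pi * T → Complex.sin ((Real.pi * u : ℝ) + b * Complex.I) ≠ 0 := by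
    intro b hb h0
    have := hs b hb
    rw [h0, norm_zero] at this
    linarith
  constructor
  · have h1 : (Real.pi : ℂ) * (u + T * Complex.I) = (Real.pi * u : ℝ) + (Real.pi * T : ℝ) * Complex.I := by
      push_cast; ring
    have hb : |Real.pi * T| = Real.pi * T := abs_of_nonneg (by linarith)
    unfold kt
    rw [h1]
    obtain ⟨w, hw⟩ : ∃ w : ℂ, w = (Real.pi * u : ℝ) + (Real.pi * T : ℝ) * Complex.I := ⟨_, rfl⟩
    have hwne := hne _ hb
    have hws := hs _ hb
    rw [← hw] at hwne hws ⊢
    have h2 : Real.pi * (Complex.cos w / Complex.sin w) + Real.pi * Complex.I =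
        Real.pi * (Complex.exp (w * Complex.I) / Complex.sin w) := by
      rw [Complex.exp_mul_I]
      field_simp
    rw [h2]
    apply key w hws
    rw [Complex.norm_exp, hw]
    congr 1
    simp
  · have h1 : (Real.pi : ℂ) * (u - T * Complex.I) = (Real.pi * u : ℝ) + (-(Real.pi * T) : ℝ) * Complex.I := by
      push_cast; ring
    have hb : |-(Real.pi * T)| = Real.pi * T := by
      rw [abs_neg]
      exact abs_of_nonneg (by linarith)
    unfold kt
    rw [h1]
    obtain ⟨w, hw⟩ : ∃ w : ℂ, w = (Real.pi * u : ℝ) + (-(Real.pi * T) : ℝ) * Complex.I := ⟨_, rfl⟩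
    have hwne := hne _ hb
    have hws := hs _ hb
    rw [← hw] at hwne hws ⊢
    have h2 : Real.pi * (Complex.cos w / Complex.sin w) - Real.pi * Complex.I =
        Real.pi * (Complex.exp (-w * Complex.I) / Complex.sin w) := by
      rw [Complex.exp_mul_I, Complex.cos_neg, Complex.sin_neg]
      field_simp
      ring
    rw [h2]
    apply key w hws
    rw [Complex.norm_exp, hw]
    congr 1
    simp

/-- the integrand on the half line -/
noncomputable def kk (G : ℂ → ℂ) (y : ℝ) : ℂ :=
  ((G (1 / 2 + y * Complex.I) - G (-(1 / 2) + y * Complex.I)) -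
    (G (1 / 2 - y * Complex.I) - G (-(1 / 2) - y * Complex.I))) / (Real.exp (2 * Real.pi * y) + 1 : ℝ)

section

variable {S : Set ℂ} {G P : ℂ → ℂ} {A : ℝ}

theorem cont_line (hSo : IsOpen S) (hG : DifferentiableOn ℂ G S) {f : ℝ → ℂ} (hf : Continuous f)
    (hfS : ∀ y, f y ∈ S) : Continuous fun y => G (f y) := by
  rw [continuous_iff_continuousAt]
  intro y
  exact ((hG.differentiableAt (hSo.mem_nhds (hfS y))).continuousAt).comp hf.continuousAt

theorem kk_bound (hS : ∀ s : ℂ, |s.re| ≤ 1 / 2 → ‖G s‖ ≤ A * (1 + |s.im|)) (hA0 : 0 ≤ A) {y : ℝ} (hy : 0 ≤ y) :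
    ‖kk G y‖ ≤ 4 * A * Real.exp (-y) := by
  have hpi := Real.pi_gt_three
  have e0 : 0 < Real.exp (2 * Real.pi * y) := Real.exp_pos _
  unfold kk
  rw [norm_div, Complex.norm_real, Real.norm_of_nonneg (by positivity), div_le_iff₀ (by positivity)]
  have b1 : ‖G (1 / 2 + y * Complex.I)‖ ≤ A * (1 + y) := by
    have := hS (1 / 2 + y * Complex.I) (by simp)
    simpa [abs_of_nonneg hy] using this
  have b2 : ‖G (-(1 / 2) + y * Complex.I)‖ ≤ A * (1 + y) := by
    have := hS (-(1 / 2) + y * Complex.I) (by simp)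
    simpa [abs_of_nonneg hy] using this
  have b3 : ‖G (1 / 2 - y * Complex.I)‖ ≤ A * (1 + y) := by
    have := hS (1 / 2 - y * Complex.I) (by simp)
    simpa [abs_of_nonneg hy] using this
  have b4 : ‖G (-(1 / 2) - y * Complex.I)‖ ≤ A * (1 + y) := by
    have := hS (-(1 / 2) - y * Complex.I) (by simp)
    simpa [abs_of_nonneg hy] using this
  have c1 := norm_sub_le (G (1 / 2 + y * Complex.I)) (G (-(1 / 2) + y * Complex.I))
  have c2 := norm_sub_le (G (1 / 2 - y * Complex.I)) (G (-(1 / 2) - y * Complex.I))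
  have c3 := norm_sub_le (G (1 / 2 + y * Complex.I) - G (-(1 / 2) + y * Complex.I))
    (G (1 / 2 - y * Complex.I) - G (-(1 / 2) - y * Complex.I))
  have h1 : ‖(G (1 / 2 + y * Complex.I) - G (-(1 / 2) + y * Complex.I)) -
      (G (1 / 2 - y * Complex.I) - G (-(1 / 2) - y * Complex.I))‖ ≤ 4 * A * (1 + y) := by linarith
  refine h1.trans ?_
  have h2 : 1 + y ≤ Real.exp y := by
    have := Real.add_one_le_exp y
    linarith
  have h3 : Real.exp y ≤ Real.exp (-y) * Real.exp (2 * Real.pi * y) := by
    rw [← Real.exp_add]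
    apply Real.exp_le_exp.2
    nlinarith
  have h4 : Real.exp (-y) * Real.exp (2 * Real.pi * y) ≤ Real.exp (-y) * (Real.exp (2 * Real.pi * y) + 1) := by
    have := Real.exp_pos (-y)
    nlinarith
  calc 4 * A * (1 + y) ≤ 4 * A * (Real.exp (-y) * (Real.exp (2 * Real.pi * y) + 1)) := by
        apply mul_le_mul_of_nonneg_left _ (by positivity)
        linarith
    _ = _ := by ring

theorem strip_mem {S : Set ℂ} (hS : ∀ s : ℂ, |s.re| ≤ 1 / 2 → s ∈ S) (y : ℝ) : (1 / 2 + y * Complex.I) ∈ S ∧
    (-(1 / 2) + y * Complex.I) ∈ S ∧ (1 / 2 - y * Complex.I) ∈ S ∧ (-(1 / 2) - y * Complex.I) ∈ S := by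
  refine ⟨hS _ ?_, hS _ ?_, hS _ ?_, hS _ ?_⟩ <;> simp

theorem kk_cont (hSo : IsOpen S) (hG : DifferentiableOn ℂ G S) (hS : ∀ s : ℂ, |s.re| ≤ 1 / 2 → s ∈ S) :
    Continuous (kk G) := by
  unfold kk
  have h1 := cont_line hSo hG (f := fun y : ℝ => 1 / 2 + y * Complex.I) (by fun_prop) fun y => (strip_mem hS y).1
  have h2 := cont_line hSo hG (f := fun y : ℝ => -(1 / 2) + y * Complex.I) (by fun_prop) fun y => (strip_mem hS y).2.1
  have h3 := cont_line hSo hG (f := fun y : ℝ => 1 / 2 - y * Complex.I) (by fun_prop) fun y => (strip_mem hS y).2.2.1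
  have h4 := cont_line hSo hG (f := fun y : ℝ => -(1 / 2) - y * Complex.I) (by fun_prop) fun y => (strip_mem hS y).2.2.2
  refine ((h1.sub h2).sub (h3.sub h4)).div ?_ ?_
  · fun_prop
  · intro y
    have : 0 < Real.exp (2 * Real.pi * y) + 1 := by positivity
    exact_mod_cast this.ne'

theorem kk_int (hSo : IsOpen S) (hG : DifferentiableOn ℂ G S) (hS : ∀ s : ℂ, |s.re| ≤ 1 / 2 → s ∈ S)
    (hA0 : 0 ≤ A) (hA : ∀ s : ℂ, |s.re| ≤ 1 / 2 → ‖G s‖ ≤ A * (1 + |s.im|)) :
    IntegrableOn (kk G) (Set.Ioi 0) := by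
  have h1 : IntegrableOn (fun y : ℝ => 4 * A * Real.exp (-y)) (Set.Ioi 0) := by
    have := (integrableOn_exp_neg_Ioi 0).const_mul (4 * A)
    exact this
  refine Integrable.mono' h1 (kk_cont hSo hG hS).aestronglyMeasurable.restrict ?_
  rw [ae_restrict_iff' measurableSet_Ioi]
  exact Filter.Eventually.of_forall fun y hy => kk_bound hA hA0 (le_of_lt hy)

theorem ff_diff (hSo : IsOpen S) (hG : DifferentiableOn ℂ G S) (hS : ∀ s : ℂ, |s.re| ≤ 1 / 2 → s ∈ S) :
    DifferentiableOn ℂ (ff G) (S ∩ {s : ℂ | |s.re| < 1}) := by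
  have h0 : (0 : ℂ) ∈ S := hS 0 (by simp)
  have h1 : DifferentiableOn ℂ (dslope G 0) S :=
    (Complex.differentiableOn_dslope (hSo.mem_nhds h0)).2 hG
  have h2 : Differentiable ℂ qs0 := by
    rw [← differentiableOn_univ]
    exact (Complex.differentiableOn_dslope univ_mem).2 sin_cd.differentiableOn
  unfold ff
  refine (h1.mono Set.inter_subset_left).mul ?_
  refine DifferentiableOn.div ?_ h2.differentiableOn fun s hs => qs0_ne hs.2
  exact ((Complex.differentiable_cos.comp (differentiable_id.const_mul _)).const_mul _).differentiableOn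

theorem rect_eq (hSo : IsOpen S) (hG : DifferentiableOn ℂ G S) (hS : ∀ s : ℂ, |s.re| ≤ 1 / 2 → s ∈ S) (T : ℝ) :
    (∫ u : ℝ in (-(1 / 2) : ℝ)..(1 / 2), ff G (u - T * Complex.I)) -
      (∫ u : ℝ in (-(1 / 2) : ℝ)..(1 / 2), ff G (u + T * Complex.I)) +
      Complex.I * (∫ y : ℝ in (-T)..T, ff G (1 / 2 + y * Complex.I)) -
      Complex.I * (∫ y : ℝ in (-T)..T, ff G (-(1 / 2) + y * Complex.I)) = 0 := by
  have h := Complex.integral_boundary_rect_eq_zero_of_differentiableOn (ff G)
    (⟨-(1 / 2), -T⟩ : ℂ) (⟨1 / 2, T⟩ : ℂ) ((ff_diff hSo hG hS).mono ?_)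
  · simp only [smul_eq_mul] at h
    have e1 : ∀ u : ℝ, (u : ℂ) + ((-T : ℝ) : ℂ) * Complex.I = u - T * Complex.I := by
      intro u
      push_cast
      ring
    have e2 : ((1 / 2 : ℝ) : ℂ) = 1 / 2 := by norm_num
    have e3 : ((-(1 / 2) : ℝ) : ℂ) = -(1 / 2) := by norm_num
    simp only [e1, e2, e3] at h
    exact h
  · intro s hs
    rw [Complex.mem_reProdIm, Set.uIcc_of_le (by norm_num : (-(1 / 2) : ℝ) ≤ 1 / 2)] at hs
    have h1 : |s.re| ≤ 1 / 2 := abs_le.2 hs.1
    exact ⟨hS s h1, lt_of_le_of_lt h1 (by norm_num)⟩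

/-- the integral over a horizontal segment -/
theorem horiz (hS : ∀ s : ℂ, |s.re| ≤ 1 / 2 → s ∈ S) (hP : ∀ s ∈ S, HasDerivAt P (G s) s)
    (hSo : IsOpen S) (hG : DifferentiableOn ℂ G S) (c : ℂ) (hc : c.re = 0) :
    ∫ u : ℝ in (-(1 / 2) : ℝ)..(1 / 2), G (u + c) = P (1 / 2 + c) - P (-(1 / 2) + c) := by
  have hmem : ∀ u ∈ Set.uIcc (-(1 / 2) : ℝ) (1 / 2), (u : ℂ) + c ∈ S := by
    intro u hu
    rw [Set.uIcc_of_le (by norm_num : (-(1 / 2) : ℝ) ≤ 1 / 2)] at hu
    apply hS
    simp only [Complex.add_re, Complex.ofReal_re, hc, add_zero]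
    exact abs_le.2 hu
  have h := intervalIntegral.integral_eq_sub_of_hasDerivAt (a := (-(1 / 2) : ℝ)) (b := 1 / 2)
    (f := fun u : ℝ => P (u + c)) (f' := fun u : ℝ => G (u + c)) ?_ ?_
  · rw [h]
    norm_num
  · intro u hu
    have h1 := (hP _ (hmem u hu)).comp_add_const (u : ℂ) c
    exact h1.comp_ofReal
  · apply ContinuousOn.intervalIntegrable
    intro u hu
    have h1 : ContinuousAt G (u + c) := (hG.differentiableAt (hSo.mem_nhds (hmem u hu))).continuousAt
    have h2 : ContinuousAt (fun u : ℝ => (u : ℂ) + c) u := by fun_prop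
    exact (ContinuousAt.comp (f := fun u : ℝ => (u : ℂ) + c) h1 h2).continuousWithinAt

/-- the integral over a vertical half line segment -/
theorem verti (hP : ∀ s ∈ S, HasDerivAt P (G s) s)
    (hSo : IsOpen S) (hG : DifferentiableOn ℂ G S) (a c : ℂ) (hmem : ∀ y : ℝ, a + y * c ∈ S) (T : ℝ) :
    c * ∫ y : ℝ in (0 : ℝ)..T, G (a + y * c) = P (a + T * c) - P a := by
  have h := intervalIntegral.integral_eq_sub_of_hasDerivAt (a := (0 : ℝ)) (b := T)
    (f := fun y : ℝ => P (a + y * c)) (f' := fun y : ℝ => c * G (a + y * c)) ?_ ?_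
  · rw [intervalIntegral.integral_const_mul] at h
    rw [h]
    simp
  · intro y _
    have h1 : HasDerivAt (fun y : ℝ => a + (y : ℂ) * c) c y := by
      have := ((Complex.ofRealCLM.hasDerivAt (x := y)).mul_const c).const_add a
      simpa using this
    have h2 := (hP _ (hmem y)).comp y h1
    rw [mul_comm]
    exact h2
  · apply Continuous.intervalIntegrable
    exact continuous_const.mul (cont_line hSo hG (by fun_prop) hmem)

theorem abp (hSo : IsOpen S) (hG : DifferentiableOn ℂ G S) (hS : ∀ s : ℂ, |s.re| ≤ 1 / 2 → s ∈ S)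
    (hP : ∀ s ∈ S, HasDerivAt P (G s) s) (hA0 : 0 ≤ A)
    (hA : ∀ s : ℂ, |s.re| ≤ 1 / 2 → ‖G s‖ ≤ A * (1 + |s.im|)) :
    G 0 = P (1 / 2) - P (-(1 / 2)) + Complex.I * ∫ y in Set.Ioi (0 : ℝ), kk G y := by
  have hpi := Real.pi_gt_three
  obtain ⟨H, hH⟩ : ∃ H : ℝ → ℂ, H = fun T : ℝ => P (1 / 2 + T * Complex.I) - P (-(1 / 2) + T * Complex.I) := ⟨_, rfl⟩
  -- the error
  obtain ⟨er, her⟩ : ∃ er : ℝ → ℂ, er = fun T : ℝ =>
      (∫ u : ℝ in (-(1 / 2) : ℝ)..(1 / 2), (G (u - T * Complex.I) - G 0) * (kt (u - T * Complex.I) - Real.pi * Complex.I)) -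
      ∫ u : ℝ in (-(1 / 2) : ℝ)..(1 / 2), (G (u + T * Complex.I) - G 0) * (kt (u + T * Complex.I) + Real.pi * Complex.I) :=
    ⟨_, rfl⟩
  have hktc : ∀ (f : ℝ → ℂ), Continuous f → (∀ u, (f u).im ≠ 0) → Continuous fun u => kt (f u) := by
    intro f hf hfi
    unfold kt
    refine continuous_const.mul (Continuous.div ?_ ?_ ?_)
    · exact Complex.continuous_cos.comp (continuous_const.mul hf)
    · exact Complex.continuous_sin.comp (continuous_const.mul hf)
    · intro u h0
      rw [Complex.sin_eq_zero_iff] at h0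
      obtain ⟨k, hk⟩ := h0
      have h1 := congrArg Complex.im hk
      simp at h1
      exact hfi u h1
  have hcG : ∀ c : ℂ, c.re = 0 → ContinuousOn (fun u : ℝ => G (u + c)) (Set.uIcc (-(1 / 2) : ℝ) (1 / 2)) := by
    intro c hc u hu
    have hm : (u : ℂ) + c ∈ S := by
      rw [Set.uIcc_of_le (by norm_num : (-(1 / 2) : ℝ) ≤ 1 / 2)] at hu
      apply hS
      simp only [Complex.add_re, Complex.ofReal_re, hc, add_zero]
      exact abs_le.2 hu
    have h1 : ContinuousAt G (u + c) := (hG.differentiableAt (hSo.mem_nhds hm)).continuousAt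
    have h2 : ContinuousAt (fun u : ℝ => (u : ℂ) + c) u := by fun_prop
    exact (ContinuousAt.comp (f := fun u : ℝ => (u : ℂ) + c) h1 h2).continuousWithinAt
  -- identity for finite T
  have hfin : ∀ T : ℝ, 1 ≤ T → er T = 2 * Real.pi * Complex.I * (G 0 - (P (1 / 2) - P (-(1 / 2)))) +
      2 * Real.pi * ∫ y in (0 : ℝ)..T, kk G y := by
    intro T hT
    have hr := rect_eq hSo hG hS T
    -- horizontal sides
    have e1 : (∫ u : ℝ in (-(1 / 2) : ℝ)..(1 / 2), ff G (u - T * Complex.I)) =
        (∫ u : ℝ in (-(1 / 2) : ℝ)..(1 / 2), (G (u - T * Complex.I) - G 0) * (kt (u - T * Complex.I) - Real.pi * Complex.I)) +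
        Real.pi * Complex.I * (H (-T) - G 0) := by
      have h1 : ∫ u : ℝ in (-(1 / 2) : ℝ)..(1 / 2), G (u - T * Complex.I) = H (-T) := by
        have := horiz hS hP hSo hG (-(T * Complex.I)) (by simp)
        rw [hH]
        simp only [Complex.ofReal_neg, neg_mul]
        rw [← this]
        rfl
      have h2 : ∫ u : ℝ in (-(1 / 2) : ℝ)..(1 / 2), (Real.pi * Complex.I * (G (u - T * Complex.I) - G 0)) =
          Real.pi * Complex.I * (H (-T) - G 0) := by
        rw [intervalIntegral.integral_const_mul, intervalIntegral.integral_sub, h1]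
        · simp
          ring_nf
        · exact (hcG (-(T * Complex.I)) (by simp)).intervalIntegrable
        · exact intervalIntegrable_const
      rw [← h2, ← intervalIntegral.integral_add]
      · refine intervalIntegral.integral_congr fun u _ => ?_
        beta_reduce
        rw [ff_eq]
        · ring
        · intro h0
          have := congrArg Complex.im h0
          simp at this
          linarith
      · apply ContinuousOn.intervalIntegrable
        refine ((hcG (-(T * Complex.I)) (by simp)).sub continuousOn_const).mul ?_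
        refine ((hktc _ (by fun_prop) ?_).continuousOn).sub continuousOn_const
        intro u
        simp
        linarith
      · apply ContinuousOn.intervalIntegrable
        exact continuousOn_const.mul ((hcG (-(T * Complex.I)) (by simp)).sub continuousOn_const)
    have e2 : (∫ u : ℝ in (-(1 / 2) : ℝ)..(1 / 2), ff G (u + T * Complex.I)) =
        (∫ u : ℝ in (-(1 / 2) : ℝ)..(1 / 2), (G (u + T * Complex.I) - G 0) * (kt (u + T * Complex.I) + Real.pi * Complex.I)) -
        Real.pi * Complex.I * (H T - G 0) := by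
      have h1 : ∫ u : ℝ in (-(1 / 2) : ℝ)..(1 / 2), G (u + T * Complex.I) = H T := by
        have := horiz hS hP hSo hG (T * Complex.I) (by simp)
        rw [hH]
        exact this
      have h2 : ∫ u : ℝ in (-(1 / 2) : ℝ)..(1 / 2), (Real.pi * Complex.I * (G (u + T * Complex.I) - G 0)) =
          Real.pi * Complex.I * (H T - G 0) := by
        rw [intervalIntegral.integral_const_mul, intervalIntegral.integral_sub, h1]
        · simp
          ring_nf
        · exact (hcG (T * Complex.I) (by simp)).intervalIntegrable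
        · exact intervalIntegrable_const
      rw [← h2, ← intervalIntegral.integral_sub]
      · refine intervalIntegral.integral_congr fun u _ => ?_
        beta_reduce
        rw [ff_eq]
        · ring
        · intro h0
          have := congrArg Complex.im h0
          simp at this
          linarith
      · apply ContinuousOn.intervalIntegrable
        refine ((hcG (T * Complex.I) (by simp)).sub continuousOn_const).mul ?_
        refine ((hktc _ (by fun_prop) ?_).continuousOn).add continuousOn_const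
        intro u
        simp
        linarith
      · apply ContinuousOn.intervalIntegrable
        exact continuousOn_const.mul ((hcG (T * Complex.I) (by simp)).sub continuousOn_const)
    -- vertical sides
    obtain ⟨h, hh⟩ : ∃ h : ℝ → ℂ, h = fun y : ℝ => G (1 / 2 + y * Complex.I) - G (-(1 / 2) + y * Complex.I) := ⟨_, rfl⟩
    have hhc : Continuous h := by
      rw [hh]
      exact (cont_line hSo hG (f := fun y : ℝ => 1 / 2 + y * Complex.I) (by fun_prop) fun y => (strip_mem hS y).1).sub
        (cont_line hSo hG (f := fun y : ℝ => -(1 / 2) + y * Complex.I) (by fun_prop) fun y => (strip_mem hS y).2.1)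
    have htc : Continuous fun y : ℝ => Real.tanh (Real.pi * y) := by
      have : (fun y : ℝ => Real.tanh (Real.pi * y)) = fun y : ℝ => 1 - 2 / (Real.exp (2 * (Real.pi * y)) + 1) :=
        funext fun y => tanh_eq _
      rw [this]
      refine continuous_const.sub (continuous_const.div (by fun_prop) fun y => ?_)
      positivity
    have hneg : ∀ y : ℝ, (1 / 2 + y * Complex.I : ℂ) ≠ 0 ∧ (-(1 / 2) + y * Complex.I : ℂ) ≠ 0 := by
      intro y
      constructor <;>
      · intro h0
        have := congrArg Complex.re h0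
        simp at this
    have e3 : Complex.I * (∫ y : ℝ in (-T)..T, ff G (1 / 2 + y * Complex.I)) -
        Complex.I * (∫ y : ℝ in (-T)..T, ff G (-(1 / 2) + y * Complex.I)) =
        Real.pi * ∫ y : ℝ in (-T)..T, h y * (Real.tanh (Real.pi * y) : ℝ) := by
      rw [← mul_sub, ← intervalIntegral.integral_sub, ← intervalIntegral.integral_const_mul,
        ← intervalIntegral.integral_const_mul]
      · refine intervalIntegral.integral_congr fun y _ => ?_
        beta_reduce
        rw [ff_eq G (hneg y).1, ff_eq G (hneg y).2, kt_half, kt_nhalf, hh]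
        linear_combination (-(G (1 / 2 + y * Complex.I) - G (-(1 / 2) + y * Complex.I)) * Real.pi *
          (Real.tanh (Real.pi * y) : ℝ)) * Complex.I_mul_I
      · apply Continuous.intervalIntegrable
        have : (fun y : ℝ => ff G (1 / 2 + y * Complex.I)) = fun y : ℝ =>
            (G (1 / 2 + y * Complex.I) - G 0) * (-Complex.I * Real.pi * (Real.tanh (Real.pi * y) : ℝ)) :=
          funext fun y => by rw [ff_eq G (hneg y).1, kt_half]
        rw [this]
        exact ((cont_line hSo hG (f := fun y : ℝ => 1 / 2 + y * Complex.I) (by fun_prop)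
          fun y => (strip_mem hS y).1).sub continuous_const).mul
          (continuous_const.mul (Complex.continuous_ofReal.comp htc))
      · apply Continuous.intervalIntegrable
        have : (fun y : ℝ => ff G (-(1 / 2) + y * Complex.I)) = fun y : ℝ =>
            (G (-(1 / 2) + y * Complex.I) - G 0) * (-Complex.I * Real.pi * (Real.tanh (Real.pi * y) : ℝ)) :=
          funext fun y => by rw [ff_eq G (hneg y).2, kt_nhalf]
        rw [this]
        exact ((cont_line hSo hG (f := fun y : ℝ => -(1 / 2) + y * Complex.I) (by fun_prop)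
          fun y => (strip_mem hS y).2.1).sub continuous_const).mul
          (continuous_const.mul (Complex.continuous_ofReal.comp htc))
    have hint : ∀ a b : ℝ, IntervalIntegrable (fun y : ℝ => h y * (Real.tanh (Real.pi * y) : ℝ)) volume a b :=
      fun a b => (hhc.mul (Complex.continuous_ofReal.comp htc)).intervalIntegrable _ _
    have e4 : ∫ y : ℝ in (-T)..T, h y * (Real.tanh (Real.pi * y) : ℝ) =
        ∫ y : ℝ in (0 : ℝ)..T, (h y - h (-y)) * (Real.tanh (Real.pi * y) : ℝ) := by
      rw [← intervalIntegral.integral_add_adjacent_intervals (hint (-T) 0) (hint 0 T)]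
      have h1 : ∫ y : ℝ in (-T)..0, h y * (Real.tanh (Real.pi * y) : ℝ) =
          ∫ y : ℝ in (0 : ℝ)..T, h (-y) * (Real.tanh (Real.pi * (-y)) : ℝ) := by
        have := intervalIntegral.integral_comp_neg (a := (0 : ℝ)) (b := T)
          (fun y => h y * (Real.tanh (Real.pi * y) : ℝ))
        rw [neg_zero] at this
        exact this.symm
      rw [h1, ← intervalIntegral.integral_add]
      · refine intervalIntegral.integral_congr fun y _ => ?_
        beta_reduce
        rw [mul_neg, Real.tanh_neg]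
        push_cast
        ring
      · apply Continuous.intervalIntegrable
        exact (hhc.comp continuous_neg).mul (Complex.continuous_ofReal.comp (htc.comp continuous_neg))
      · exact hint _ _
    have e5 : ∫ y : ℝ in (0 : ℝ)..T, (h y - h (-y)) * (Real.tanh (Real.pi * y) : ℝ) =
        (∫ y : ℝ in (0 : ℝ)..T, h y) - (∫ y : ℝ in (0 : ℝ)..T, h (-y)) - 2 * ∫ y : ℝ in (0 : ℝ)..T, kk G y := by
      have hcn : Continuous fun y => h (-y) := hhc.comp continuous_neg
      rw [← intervalIntegral.integral_sub (hhc.intervalIntegrable _ _) (hcn.intervalIntegrable _ _),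
        ← intervalIntegral.integral_const_mul, ← intervalIntegral.integral_sub]
      · refine intervalIntegral.integral_congr fun y _ => ?_
        beta_reduce
        rw [tanh_eq, hh]
        unfold kk
        beta_reduce
        have h0 : ((Real.exp (2 * Real.pi * y) + 1 : ℝ) : ℂ) ≠ 0 := by
          have : 0 < Real.exp (2 * Real.pi * y) + 1 := by positivity
          exact_mod_cast this.ne'
        have h2 : 2 * (Real.pi * y) = 2 * Real.pi * y := by ring
        rw [h2]
        have h3 : ((1 - 2 / (Real.exp (2 * Real.pi * y) + 1) : ℝ) : ℂ) =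
            1 - 2 / ((Real.exp (2 * Real.pi * y) + 1 : ℝ) : ℂ) := by push_cast; ring
        rw [h3]
        have h4 : ((-y : ℝ) : ℂ) = -(y : ℂ) := Complex.ofReal_neg y
        rw [h4]
        have h5 : (1 / 2 + -(y : ℂ) * Complex.I) = 1 / 2 - y * Complex.I := by ring
        have h6 : (-(1 / 2) + -(y : ℂ) * Complex.I) = -(1 / 2) - y * Complex.I := by ring
        rw [h5, h6]
        field_simp
      · exact (hhc.sub hcn).intervalIntegrable _ _
      · exact (continuous_const.mul (kk_cont hSo hG hS)).intervalIntegrable _ _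
    have v1 := verti hP hSo hG (1 / 2) Complex.I (fun y => (strip_mem hS y).1) T
    have v2 := verti hP hSo hG (-(1 / 2)) Complex.I (fun y => (strip_mem hS y).2.1) T
    have v3 := verti hP hSo hG (1 / 2) (-Complex.I) (fun y => by
      have := (strip_mem hS y).2.2.1
      rwa [sub_eq_add_neg, ← mul_neg] at this) T
    have v4 := verti hP hSo hG (-(1 / 2)) (-Complex.I) (fun y => by
      have := (strip_mem hS y).2.2.2
      rwa [sub_eq_add_neg, ← mul_neg] at this) T
    have i1 : Complex.I * ∫ y : ℝ in (0 : ℝ)..T, h y = H T - (P (1 / 2) - P (-(1 / 2))) := by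
      rw [hh, intervalIntegral.integral_sub, mul_sub, v1, v2, hH]
      · ring
      · exact (cont_line hSo hG (f := fun y : ℝ => 1 / 2 + y * Complex.I) (by fun_prop)
          fun y => (strip_mem hS y).1).intervalIntegrable _ _
      · exact (cont_line hSo hG (f := fun y : ℝ => -(1 / 2) + y * Complex.I) (by fun_prop)
          fun y => (strip_mem hS y).2.1).intervalIntegrable _ _
    have i2 : -Complex.I * ∫ y : ℝ in (0 : ℝ)..T, h (-y) = H (-T) - (P (1 / 2) - P (-(1 / 2))) := by
      have h1 : (fun y : ℝ => h (-y)) = fun y : ℝ => G (1 / 2 + y * -Complex.I) - G (-(1 / 2) + y * -Complex.I) := by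
        funext y
        rw [hh]
        simp only [Complex.ofReal_neg]
        congr 2 <;> ring
      rw [h1, intervalIntegral.integral_sub, mul_sub, v3, v4, hH]
      · simp only [Complex.ofReal_neg, neg_mul, mul_neg]
        ring
      · refine (cont_line hSo hG (f := fun y : ℝ => 1 / 2 + y * -Complex.I) (by fun_prop)
          fun y => ?_).intervalIntegrable _ _
        have := (strip_mem hS y).2.2.1
        rwa [sub_eq_add_neg, ← mul_neg] at this
      · refine (cont_line hSo hG (f := fun y : ℝ => -(1 / 2) + y * -Complex.I) (by fun_prop)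
          fun y => ?_).intervalIntegrable _ _
        have := (strip_mem hS y).2.2.2
        rwa [sub_eq_add_neg, ← mul_neg] at this
    have hr2 : (∫ u : ℝ in (-(1 / 2) : ℝ)..(1 / 2), ff G (u - T * Complex.I)) -
      (∫ u : ℝ in (-(1 / 2) : ℝ)..(1 / 2), ff G (u + T * Complex.I)) +
      Real.pi * ((∫ y : ℝ in (0 : ℝ)..T, h y) - (∫ y : ℝ in (0 : ℝ)..T, h (-y)) - 2 * ∫ y : ℝ in (0 : ℝ)..T, kk G y) = 0 := by
      rw [← e5, ← e4, ← e3]
      linear_combination hr
    rw [e1, e2] at hr2
    rw [her]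
    beta_reduce
    obtain ⟨J1, hJ1⟩ : ∃ J1, J1 = ∫ y : ℝ in (0 : ℝ)..T, h y := ⟨_, rfl⟩
    obtain ⟨J2, hJ2⟩ : ∃ J2, J2 = ∫ y : ℝ in (0 : ℝ)..T, h (-y) := ⟨_, rfl⟩
    rw [← hJ1] at i1 hr2
    rw [← hJ2] at i2 hr2
    have j1 : J1 = -Complex.I * (H T - (P (1 / 2) - P (-(1 / 2)))) := by
      rw [← i1]
      linear_combination J1 * Complex.I_mul_I
    have j2 : J2 = Complex.I * (H (-T) - (P (1 / 2) - P (-(1 / 2)))) := by
      rw [← i2]
      linear_combination J2 * Complex.I_mul_I
    rw [j1, j2] at hr2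
    linear_combination hr2
  -- the error tends to zero
  have herr : Tendsto er atTop (𝓝 0) := by
    have hb : ∀ T : ℝ, 1 ≤ T → ‖er T‖ ≤ 64 * Real.pi * A * Real.exp (-T) := by
      intro T hT
      have hG0 : ‖G 0‖ ≤ A := by
        have := hA 0 (by simp)
        simpa using this
      have hk := fun u : ℝ => kt_top (u := u) hT
      have hGb : ∀ u ∈ Set.uIoc (-(1 / 2) : ℝ) (1 / 2), ‖G (u - T * Complex.I)‖ ≤ A * (1 + T) ∧
          ‖G (u + T * Complex.I)‖ ≤ A * (1 + T) := by
        intro u hu
        rw [Set.uIoc_of_le (by norm_num)] at hu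
        have h1 : |u| ≤ 1 / 2 := abs_le.2 ⟨hu.1.le, hu.2⟩
        constructor
        · have := hA (u - T * Complex.I) (by simpa using h1)
          simpa [abs_of_nonneg (by linarith : (0 : ℝ) ≤ T)] using this
        · have := hA (u + T * Complex.I) (by simpa using h1)
          simpa [abs_of_nonneg (by linarith : (0 : ℝ) ≤ T)] using this
      have hT2 : A * (1 + T) + A ≤ 2 * A * Real.exp T := by
        have := Real.add_one_le_exp T
        nlinarith
      have hexp : Real.exp T * Real.exp (-(2 * Real.pi * T)) ≤ Real.exp (-T) := by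
        rw [← Real.exp_add]
        apply Real.exp_le_exp.2
        nlinarith
      have hprod : (2 * A * Real.exp T) * (4 * Real.pi * Real.exp (-(2 * Real.pi * T))) ≤ 8 * Real.pi * A * Real.exp (-T) := by
        calc (2 * A * Real.exp T) * (4 * Real.pi * Real.exp (-(2 * Real.pi * T))) =
              (8 * Real.pi * A) * (Real.exp T * Real.exp (-(2 * Real.pi * T))) := by ring
          _ ≤ (8 * Real.pi * A) * Real.exp (-T) := mul_le_mul_of_nonneg_left hexp (by positivity)
      have b1 : ‖∫ u : ℝ in (-(1 / 2) : ℝ)..(1 / 2), (G (u - T * Complex.I) - G 0) * (kt (u - T * Complex.I) - Real.pi * Complex.I)‖ ≤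
          8 * Real.pi * A * Real.exp (-T) * |1 / 2 - (-(1 / 2))| := by
        apply intervalIntegral.norm_integral_le_of_norm_le_const
        intro u hu
        rw [norm_mul]
        refine le_trans (mul_le_mul ?_ (hk u).2 (norm_nonneg _) (by positivity)) hprod
        have := norm_sub_le (G (u - T * Complex.I)) (G 0)
        have := (hGb u hu).1
        linarith
      have b2 : ‖∫ u : ℝ in (-(1 / 2) : ℝ)..(1 / 2), (G (u + T * Complex.I) - G 0) * (kt (u + T * Complex.I) + Real.pi * Complex.I)‖ ≤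
          8 * Real.pi * A * Real.exp (-T) * |1 / 2 - (-(1 / 2))| := by
        apply intervalIntegral.norm_integral_le_of_norm_le_const
        intro u hu
        rw [norm_mul]
        refine le_trans (mul_le_mul ?_ (hk u).1 (norm_nonneg _) (by positivity)) hprod
        have := norm_sub_le (G (u + T * Complex.I)) (G 0)
        have := (hGb u hu).2
        linarith
      have habs : |(1 / 2 : ℝ) - (-(1 / 2))| = 1 := by norm_num
      rw [habs, mul_one] at b1 b2
      rw [her]
      refine (norm_sub_le _ _).trans ?_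
      have : 0 ≤ Real.pi * A * Real.exp (-T) := by positivity
      linarith
    have h1 : Tendsto (fun T : ℝ => 64 * Real.pi * A * Real.exp (-T)) atTop (𝓝 0) := by
      have := (Real.tendsto_exp_neg_atTop_nhds_zero).const_mul (64 * Real.pi * A)
      rwa [mul_zero] at this
    refine squeeze_zero_norm' ?_ h1
    filter_upwards [eventually_ge_atTop 1] with T hT
    exact hb T hT
  have hlim : Tendsto er atTop (𝓝 (2 * Real.pi * Complex.I * (G 0 - (P (1 / 2) - P (-(1 / 2)))) +
      2 * Real.pi * ∫ y in Set.Ioi (0 : ℝ), kk G y)) := by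
    have h1 := intervalIntegral_tendsto_integral_Ioi 0 (kk_int hSo hG hS hA0 hA) tendsto_id
    have h2 := (h1.const_mul (2 * Real.pi : ℂ)).const_add
      (2 * Real.pi * Complex.I * (G 0 - (P (1 / 2) - P (-(1 / 2)))))
    refine h2.congr' ?_
    filter_upwards [eventually_ge_atTop 1] with T hT
    exact (hfin T hT).symm
  have huniq := tendsto_nhds_unique herr hlim
  have hpi0 : (2 * Real.pi * Complex.I : ℂ) ≠ 0 := by simp [Real.pi_ne_zero]
  obtain ⟨J, hJ⟩ : ∃ J, J = ∫ y in Set.Ioi (0 : ℝ), kk G y := ⟨_, rfl⟩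
  rw [← hJ] at huniq ⊢
  apply mul_left_cancel₀ hpi0
  linear_combination (-1 : ℂ) * huniq - (2 * Real.pi * J) * Complex.I_mul_I

end

end Pool.Agent.Q280.KN
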