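import Pool.Agent.Q99.KN.Stm3
import Pool.Agent.Q280.KN.Abp

/-!
# The quantum dilogarithm (task GAM)
-/

set_option autoImplicit false

namespace Pool.Agent.Q280.KN

open Finset Filter Topology MeasureTheory
open Pool.Agent.Q99.KN

theorem sin_ge {r δ : ℝ} (h1 : δ ≤ r) (h2 : r ≤ 1 - δ) (hδ : 0 < δ) : 2 * δ ≤ Real.sin (Real.pi * r) := by
  have hpi := Real.pi_pos
  have key : ∀ u : ℝ, δ ≤ u → u ≤ 1 / 2 → 2 * δ ≤ Real.sin (Real.pi * u) := by
    intro u h1 h2
    have h3 := Real.mul_le_sin (x := Real.pi * u) (mul_nonneg hpi.le (by linarith)) (by nlinarith)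
    have h4 : 2 / Real.pi * (Real.pi * u) = 2 * u := by field_simp
    linarith
  rcases le_total r (1 / 2) with h | h
  · exact key r h1 h
  · have h3 := key (1 - r) (by linarith) (by linarith)
    have h4 : Real.pi * (1 - r) = Real.pi - Real.pi * r := by ring
    rw [h4, Real.sin_pi_sub] at h3
    exact h3

theorem cos_sin_le (a b : ℝ) : ‖Complex.cos (a + b * Complex.I)‖ * |Real.sin a| ≤ ‖Complex.sin (a + b * Complex.I)‖ := by
  have h1 : ‖Complex.cos (a + b * Complex.I)‖ ^ 2 = Real.cos a ^ 2 + Real.sinh b ^ 2 := by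
    rw [← Complex.normSq_eq_norm_sq, Complex.cos_add_mul_I, ← Complex.ofReal_cos, ← Complex.ofReal_sin,
      ← Complex.ofReal_cosh, ← Complex.ofReal_sinh]
    have h3 : ((Real.cos a : ℂ) * (Real.cosh b : ℂ) - (Real.sin a : ℂ) * (Real.sinh b : ℂ) * Complex.I) =
        ⟨Real.cos a * Real.cosh b, -(Real.sin a * Real.sinh b)⟩ := by
      apply Complex.ext <;> simp only [Complex.sub_re, Complex.sub_im, Complex.mul_re, Complex.mul_im,
        Complex.ofReal_re, Complex.ofReal_im, Complex.I_re, Complex.I_im] <;> ring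
    rw [h3, Complex.normSq_mk]
    have h4 := Real.cosh_sq b
    have h5 := Real.sin_sq_add_cos_sq a
    linear_combination Real.cos a ^ 2 * h4 + Real.sinh b ^ 2 * h5
  have h2 : ‖Complex.sin (a + b * Complex.I)‖ ^ 2 = Real.sin a ^ 2 + Real.sinh b ^ 2 := by
    rw [← Complex.normSq_eq_norm_sq, Complex.sin_add_mul_I, ← Complex.ofReal_cos, ← Complex.ofReal_sin,
      ← Complex.ofReal_cosh, ← Complex.ofReal_sinh]
    have h3 : ((Real.sin a : ℂ) * (Real.cosh b : ℂ) + (Real.cos a : ℂ) * (Real.sinh b : ℂ) * Complex.I) =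
        ⟨Real.sin a * Real.cosh b, Real.cos a * Real.sinh b⟩ := by
      apply Complex.ext <;> simp only [Complex.add_re, Complex.add_im, Complex.mul_re, Complex.mul_im,
        Complex.ofReal_re, Complex.ofReal_im, Complex.I_re, Complex.I_im] <;> ring
    rw [h3, Complex.normSq_mk]
    have h4 := Real.cosh_sq b
    have h5 := Real.sin_sq_add_cos_sq a
    linear_combination Real.sin a ^ 2 * h4 + Real.sinh b ^ 2 * h5
  apply le_of_sq_le_sq _ (norm_nonneg _)
  rw [mul_pow, sq_abs, h1, h2]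
  have h3 := Real.cos_sq_le_one a
  have h4 := Real.sin_sq_le_one a
  have h5 := sq_nonneg (Real.sinh b)
  have h6 := sq_nonneg (Real.sin a)
  nlinarith

theorem ct_bd {x : ℂ} {δ : ℝ} (h1 : δ ≤ x.re) (h2 : x.re ≤ 1 - δ) (hδ : 0 < δ) : ‖ct x‖ ≤ Real.pi / (2 * δ) := by
  have hs := sin_ge h1 h2 hδ
  have hc := cos_sin_le (Real.pi * x.re) (Real.pi * x.im)
  have hx : ((Real.pi * x.re : ℝ) : ℂ) + (Real.pi * x.im : ℝ) * Complex.I = Real.pi * x := by
    apply Complex.ext <;> simp
  rw [hx, abs_of_nonneg (by linarith)] at hc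
  have hsin : 0 < ‖Complex.sin (Real.pi * x)‖ := by
    rw [norm_pos_iff]
    intro h0
    rw [Complex.sin_eq_zero_iff] at h0
    obtain ⟨k, hk⟩ := h0
    have h3 : x = k := mul_left_cancel₀ (Complex.ofReal_ne_zero.2 Real.pi_ne_zero) (by rw [hk]; ring)
    rw [h3] at h1 h2
    simp at h1 h2
    have h4 : (0 : ℝ) < k := by linarith
    have h5 : (k : ℝ) < 1 := by linarith
    have h6 : (0 : ℤ) < k := by exact_mod_cast h4
    have h7 : k < 1 := by exact_mod_cast h5
    omega
  unfold ct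
  rw [norm_mul, norm_div, Complex.norm_real, Real.norm_of_nonneg Real.pi_pos.le, mul_div_assoc', div_le_div_iff₀ hsin (by positivity)]
  have := Real.pi_pos
  have h3 : ‖Complex.cos (Real.pi * x)‖ * (2 * δ) ≤ ‖Complex.sin (Real.pi * x)‖ :=
    le_trans (mul_le_mul_of_nonneg_left hs (norm_nonneg _)) hc
  nlinarith

theorem sin_ne {x : ℂ} (hx : x ∈ St) : Complex.sin (Real.pi * x) ≠ 0 := by
  intro h0
  rw [Complex.sin_eq_zero_iff] at h0
  obtain ⟨k, hk⟩ := h0
  have h3 : x = k := mul_left_cancel₀ (Complex.ofReal_ne_zero.2 Real.pi_ne_zero) (by rw [hk]; ring)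
  obtain ⟨h1, h2⟩ := hx
  rw [h3] at h1 h2
  simp at h1 h2
  have h6 : (0 : ℤ) < k := by exact_mod_cast h1
  have h7 : k < 1 := by exact_mod_cast h2
  omega

/-- the closed substrip -/
def Sd (δ : ℝ) : Set ℂ := {x | δ ≤ x.re ∧ x.re ≤ 1 - δ}

theorem Sd_conv (δ : ℝ) : Convex ℝ (Sd δ) := by
  have h1 : Convex ℝ {x : ℂ | δ ≤ x.re} := convex_halfSpace_re_ge δ
  have h2 : Convex ℝ {x : ℂ | x.re ≤ 1 - δ} := convex_halfSpace_re_le (1 - δ)
  exact h1.inter h2

theorem Sd_St {δ : ℝ} (hδ : 0 < δ) : Sd δ ⊆ St := fun x hx => ⟨by linarith [hx.1], by linarith [hx.2]⟩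

theorem St_open : IsOpen St := by
  have h1 : IsOpen {x : ℂ | 0 < x.re} := isOpen_lt continuous_const Complex.continuous_re
  have h2 : IsOpen {x : ℂ | x.re < 1} := isOpen_lt Complex.continuous_re continuous_const
  exact h1.inter h2

/-- the integral -/
noncomputable def RI (N : ℕ) (x : ℂ) : ℂ :=
  ∫ t in Set.Ioi (0:ℝ), (bb (x + Complex.I * t / N) - bb (x - Complex.I * t / N)) /
    (Real.exp (2 * Real.pi * t) + 1 : ℝ)

theorem Gm_eq (N : ℕ) (x : ℂ) : Gm N x = Complex.exp (N * LC x + Complex.I * RI N x) := rfl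

theorem sh_re (N : ℕ) (x : ℂ) (t : ℝ) : (x + Complex.I * t / N).re = x.re ∧ (x - Complex.I * t / N).re = x.re := by
  have h : (Complex.I * t / N : ℂ).re = 0 := by
    have : (Complex.I * t / N : ℂ) = ((t / N : ℝ) : ℂ) * Complex.I := by push_cast; ring
    rw [this]
    simp
  constructor
  · rw [Complex.add_re, h, add_zero]
  · rw [Complex.sub_re, h, sub_zero]

section

variable (hL : S_LC)

include hL

theorem bb_lip {δ : ℝ} (hδ : 0 < δ) {x y : ℂ} (hx : x ∈ Sd δ) (hy : y ∈ Sd δ) :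
    ‖bb y - bb x‖ ≤ Real.pi / (2 * δ) * ‖y - x‖ := by
  refine (Sd_conv δ).norm_image_sub_le_of_norm_hasDerivWithin_le (f := bb) (f' := ct)
    (fun z hz => ((hL.2.2.2.1 z (Sd_St hδ hz)).hasDerivWithinAt)) (fun z hz => ct_bd hz.1 hz.2 hδ) hx hy

theorem int_bd {δ : ℝ} (hδ : 0 < δ) {N : ℕ} (hN : 1 ≤ N) {x : ℂ} (hx : x ∈ Sd δ) {t : ℝ} (ht : 0 ≤ t) :
    ‖(bb (x + Complex.I * t / N) - bb (x - Complex.I * t / N)) / (Real.exp (2 * Real.pi * t) + 1 : ℝ)‖ ≤
      Real.pi / δ / N * Real.exp (-t) := by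
  have hN0 : (0 : ℝ) < N := by exact_mod_cast hN
  have hpi := Real.pi_gt_three
  have h1 : x + Complex.I * t / N ∈ Sd δ := by
    unfold Sd
    rw [Set.mem_ofPred_eq, (sh_re N x t).1]
    exact hx
  have h2 : x - Complex.I * t / N ∈ Sd δ := by
    unfold Sd
    rw [Set.mem_ofPred_eq, (sh_re N x t).2]
    exact hx
  have h3 := bb_lip hL hδ h2 h1
  have h4 : ‖x + Complex.I * t / N - (x - Complex.I * t / N)‖ = 2 * (t / N) := by
    have : x + Complex.I * t / N - (x - Complex.I * t / N) = 2 * (Complex.I * ((t / N : ℝ) : ℂ)) := by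
      push_cast; ring
    rw [this, norm_mul, norm_mul, Complex.norm_I, Complex.norm_real, Real.norm_of_nonneg (by positivity), Complex.norm_two]
    ring
  rw [h4] at h3
  rw [norm_div, Complex.norm_real, Real.norm_of_nonneg (by positivity), div_le_iff₀ (by positivity)]
  have h5 : t ≤ Real.exp (-t) * (Real.exp (2 * Real.pi * t) + 1) := by
    have e1 : t ≤ Real.exp t := by linarith [Real.add_one_le_exp t]
    have e2 : Real.exp t ≤ Real.exp (-t) * Real.exp (2 * Real.pi * t) := by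
      rw [← Real.exp_add]
      apply Real.exp_le_exp.2
      nlinarith
    have e3 := Real.exp_pos (-t)
    nlinarith
  refine h3.trans ?_
  calc Real.pi / (2 * δ) * (2 * (t / N)) = Real.pi / δ / N * t := by field_simp
    _ ≤ Real.pi / δ / N * (Real.exp (-t) * (Real.exp (2 * Real.pi * t) + 1)) :=
        mul_le_mul_of_nonneg_left h5 (by positivity)
    _ = _ := by ring

theorem bb_cont_line {x : ℂ} (hx : x ∈ St) (f : ℝ → ℂ) (hf : Continuous f) (hf2 : ∀ t, (f t).re = x.re) :
    Continuous fun t => bb (f t) := by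
  rw [continuous_iff_continuousAt]
  intro y
  have hy : f y ∈ St := ⟨by rw [hf2]; exact hx.1, by rw [hf2]; exact hx.2⟩
  exact ((hL.2.2.2.1 _ hy).continuousAt).comp hf.continuousAt

theorem int_cont (N : ℕ) {x : ℂ} (hx : x ∈ St) :
    Continuous fun t : ℝ => (bb (x + Complex.I * t / N) - bb (x - Complex.I * t / N)) / (Real.exp (2 * Real.pi * t) + 1 : ℝ) := by
  refine ((bb_cont_line hL hx _ (by fun_prop) fun t => (sh_re N x t).1).sub
    (bb_cont_line hL hx _ (by fun_prop) fun t => (sh_re N x t).2)).div ?_ ?_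
  · fun_prop
  · intro y
    have : 0 < Real.exp (2 * Real.pi * y) + 1 := by positivity
    exact_mod_cast this.ne'

omit hL in
theorem St_Sd {x : ℂ} (hx : x ∈ St) : ∃ δ : ℝ, 0 < δ ∧ x ∈ Sd δ := by
  refine ⟨min x.re (1 - x.re), lt_min hx.1 (by linarith [hx.2]), min_le_left _ _, ?_⟩
  have := min_le_right x.re (1 - x.re)
  linarith

theorem int_int {N : ℕ} (hN : 1 ≤ N) {x : ℂ} (hx : x ∈ St) :
    IntegrableOn (fun t : ℝ => (bb (x + Complex.I * t / N) - bb (x - Complex.I * t / N)) /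
      (Real.exp (2 * Real.pi * t) + 1 : ℝ)) (Set.Ioi 0) := by
  obtain ⟨δ, hδ, hxd⟩ := St_Sd hx
  have h1 : IntegrableOn (fun t : ℝ => Real.pi / δ / N * Real.exp (-t)) (Set.Ioi 0) :=
    (integrableOn_exp_neg_Ioi 0).const_mul _
  refine Integrable.mono' h1 (int_cont hL N hx).aestronglyMeasurable.restrict ?_
  rw [ae_restrict_iff' measurableSet_Ioi]
  exact Filter.Eventually.of_forall fun t ht => int_bd hL hδ hN hxd (le_of_lt ht)

theorem RI_bd {δ : ℝ} (hδ : 0 < δ) {N : ℕ} (hN : 1 ≤ N) {x : ℂ} (hx : x ∈ Sd δ) : ‖RI N x‖ ≤ Real.pi / δ / N := by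
  have h1 : IntegrableOn (fun t : ℝ => Real.pi / δ / N * Real.exp (-t)) (Set.Ioi 0) :=
    (integrableOn_exp_neg_Ioi 0).const_mul _
  have h2 := norm_integral_le_of_norm_le (μ := volume.restrict (Set.Ioi 0)) h1
    (f := fun t : ℝ => (bb (x + Complex.I * t / N) - bb (x - Complex.I * t / N)) /
      (Real.exp (2 * Real.pi * t) + 1 : ℝ)) (by
    rw [ae_restrict_iff' measurableSet_Ioi]
    exact Filter.Eventually.of_forall fun t ht => int_bd hL hδ hN hx (le_of_lt ht))
  rw [integral_const_mul, integral_exp_neg_Ioi_zero, mul_one] at h2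
  exact h2

theorem RI_diff {N : ℕ} (hN : 1 ≤ N) {x : ℂ} (hx : x ∈ St) : DifferentiableAt ℂ (RI N) x := by
  obtain ⟨δ, hδ, hxd⟩ := St_Sd hx
  have hN0 : (0 : ℝ) < N := by exact_mod_cast hN
  have hpi := Real.pi_gt_three
  have hball : ∀ z ∈ Metric.ball x (δ / 2), z ∈ Sd (δ / 2) := by
    intro z hz
    rw [Metric.mem_ball, dist_eq_norm] at hz
    have h1 := (Complex.abs_re_le_norm (z - x)).trans hz.le
    rw [Complex.sub_re, abs_le] at h1
    exact ⟨by linarith [hxd.1, h1.1], by linarith [hxd.2, h1.2]⟩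
  have hδ2 : 0 < δ / 2 := by positivity
  have hsd : ∀ z ∈ Metric.ball x (δ / 2), ∀ t : ℝ, z + Complex.I * t / N ∈ Sd (δ / 2) ∧ z - Complex.I * t / N ∈ Sd (δ / 2) := by
    intro z hz t
    have := hball z hz
    unfold Sd at this ⊢
    rw [Set.mem_ofPred_eq, Set.mem_ofPred_eq, (sh_re N z t).1, (sh_re N z t).2]
    exact ⟨this, this⟩
  have h := hasDerivAt_integral_of_dominated_loc_of_deriv_le (μ := volume.restrict (Set.Ioi (0:ℝ)))
    (F := fun (z : ℂ) (t : ℝ) => (bb (z + Complex.I * t / N) - bb (z - Complex.I * t / N)) / (Real.exp (2 * Real.pi * t) + 1 : ℝ))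
    (F' := fun (z : ℂ) (t : ℝ) => (ct (z + Complex.I * t / N) - ct (z - Complex.I * t / N)) / (Real.exp (2 * Real.pi * t) + 1 : ℝ))
    (x₀ := x) (s := Metric.ball x (δ / 2)) (bound := fun t : ℝ => 2 * Real.pi / δ * Real.exp (-t))
    (Metric.ball_mem_nhds x hδ2) ?_ (int_int hL hN hx) ?_ ?_ ?_ ?_
  · exact h.2.differentiableAt
  · filter_upwards [Metric.ball_mem_nhds x hδ2] with z hz
    exact (int_cont hL N (Sd_St hδ2 (hball z hz))).aestronglyMeasurable.restrict
  · -- measurability of the derivative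
    have hc : Continuous fun t : ℝ => (ct (x + Complex.I * t / N) - ct (x - Complex.I * t / N)) / (Real.exp (2 * Real.pi * t) + 1 : ℝ) := by
      have hct : ∀ f : ℝ → ℂ, Continuous f → (∀ t, f t ∈ St) → Continuous fun t => ct (f t) := by
        intro f hf hf2
        unfold ct
        exact continuous_const.mul (Continuous.div (Complex.continuous_cos.comp (continuous_const.mul hf))
          (Complex.continuous_sin.comp (continuous_const.mul hf)) fun t => sin_ne (hf2 t))
      refine ((hct _ (by fun_prop) fun t => ?_).sub (hct _ (by fun_prop) fun t => ?_)).div ?_ ?_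
      · exact Sd_St hδ2 (hsd x (Metric.mem_ball_self hδ2) t).1
      · exact Sd_St hδ2 (hsd x (Metric.mem_ball_self hδ2) t).2
      · fun_prop
      · intro y
        have : 0 < Real.exp (2 * Real.pi * y) + 1 := by positivity
        exact_mod_cast this.ne'
    exact hc.aestronglyMeasurable.restrict
  · rw [ae_restrict_iff' measurableSet_Ioi]
    refine Filter.Eventually.of_forall fun t ht z hz => ?_
    have ht0 : (0 : ℝ) ≤ t := le_of_lt ht
    rw [norm_div, Complex.norm_real, Real.norm_of_nonneg (by positivity), div_le_iff₀ (by positivity)]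
    have h1 := ct_bd (hsd z hz t).1.1 (hsd z hz t).1.2 hδ2
    have h2 := ct_bd (hsd z hz t).2.1 (hsd z hz t).2.2 hδ2
    have h3 := norm_sub_le (ct (z + Complex.I * t / N)) (ct (z - Complex.I * t / N))
    have h4 : 1 ≤ Real.exp (-t) * (Real.exp (2 * Real.pi * t) + 1) := by
      have e2 : 1 ≤ Real.exp (-t) * Real.exp (2 * Real.pi * t) := by
        rw [← Real.exp_add]
        apply Real.one_le_exp
        nlinarith
      have e3 := Real.exp_pos (-t)
      nlinarith
    have h5 : Real.pi / (2 * (δ / 2)) = Real.pi / δ := by ring_nf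
    rw [h5] at h1 h2
    calc _ ≤ 2 * Real.pi / δ * 1 := by
          have : 2 * Real.pi / δ = Real.pi / δ + Real.pi / δ := by ring
          linarith
      _ ≤ 2 * Real.pi / δ * (Real.exp (-t) * (Real.exp (2 * Real.pi * t) + 1)) :=
          mul_le_mul_of_nonneg_left h4 (by positivity)
      _ = _ := by ring
  · exact (integrableOn_exp_neg_Ioi 0).const_mul _
  · rw [ae_restrict_iff' measurableSet_Ioi]
    refine Filter.Eventually.of_forall fun t ht z hz => ?_
    have h1 := (hL.2.2.2.1 _ (Sd_St hδ2 (hsd z hz t).1)).comp_add_const z (Complex.I * t / N)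
    have h2 := (hL.2.2.2.1 _ (Sd_St hδ2 (hsd z hz t).2)).comp_sub_const z (Complex.I * t / N)
    exact (h1.sub h2).div_const _

theorem RI_odd (N : ℕ) {x : ℂ} (hx : x ∈ St) : RI N (1 - x) = -RI N x := by
  unfold RI
  rw [← integral_neg]
  refine integral_congr_ae (Filter.Eventually.of_forall fun t => ?_)
  beta_reduce
  have e1 : 1 - x + Complex.I * t / N = 1 - (x - Complex.I * t / N) := by ring
  have e2 : 1 - x - Complex.I * t / N = 1 - (x + Complex.I * t / N) := by ring
  have m1 : x + Complex.I * t / N ∈ St := by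
    unfold St
    rw [Set.mem_ofPred_eq, (sh_re N x t).1]
    exact hx
  have m2 : x - Complex.I * t / N ∈ St := by
    unfold St
    rw [Set.mem_ofPred_eq, (sh_re N x t).2]
    exact hx
  rw [e1, e2, hL.2.2.2.2 _ m1, hL.2.2.2.2 _ m2]
  ring

theorem fe {N : ℕ} (hN : 1 ≤ N) {x : ℂ} (h0 : 0 < x.re) (h1 : x.re + 1 / N < 1) :
    bb (x + 1 / (2 * N)) = N * LC (x + 1 / N) - N * LC x + Complex.I * (RI N (x + 1 / N) - RI N x) := by
  have hN0 : (0 : ℝ) < N := by exact_mod_cast hN
  have hNc : (N : ℂ) ≠ 0 := by exact_mod_cast hN0.ne'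
  have hN1 : (1 : ℝ) ≤ N := by exact_mod_cast hN
  obtain ⟨δ, hδ, hδ1, hδ2⟩ : ∃ δ : ℝ, 0 < δ ∧ δ ≤ x.re ∧ x.re + 1 / N ≤ 1 - δ := by
    refine ⟨min x.re (1 - x.re - 1 / N), lt_min h0 (by linarith), min_le_left _ _, ?_⟩
    have := min_le_right x.re (1 - x.re - 1 / N)
    linarith
  have hre : ∀ s : ℂ, (x + 1 / (2 * N) + s / N).re = x.re + 1 / (2 * N) + s.re / N := by
    intro s
    have e1 : (1 / (2 * N) : ℂ) = ((1 / (2 * N) : ℝ) : ℂ) := by push_cast; ring
    have e2 : (s / N : ℂ) = s / ((N : ℝ) : ℂ) := by push_cast; ring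
    rw [e1, e2, Complex.add_re, Complex.add_re, Complex.ofReal_re, Complex.div_ofReal_re]
  have hmem : ∀ s : ℂ, |s.re| ≤ 1 / 2 → x + 1 / (2 * N) + s / N ∈ Sd δ := by
    intro s hs
    rw [abs_le] at hs
    unfold Sd
    rw [Set.mem_ofPred_eq, hre]
    have e1 : -(1 / (2 * (N : ℝ))) ≤ s.re / N := by
      rw [le_div_iff₀ hN0]
      have : -(1 / (2 * (N : ℝ))) * N = -(1 / 2) := by field_simp
      linarith [hs.1]
    have e2 : s.re / N ≤ 1 / (2 * (N : ℝ)) := by
      rw [div_le_iff₀ hN0]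
      have : 1 / (2 * (N : ℝ)) * N = 1 / 2 := by field_simp
      linarith [hs.2]
    have e3 : 1 / (N : ℝ) = 1 / (2 * (N : ℝ)) + 1 / (2 * (N : ℝ)) := by field_simp; norm_num
    constructor
    · linarith
    · linarith
  obtain ⟨G, hG⟩ : ∃ G : ℂ → ℂ, G = fun s => bb (x + 1 / (2 * N) + s / N) := ⟨_, rfl⟩
  obtain ⟨P, hP⟩ : ∃ P : ℂ → ℂ, P = fun s => N * LC (x + 1 / (2 * N) + s / N) := ⟨_, rfl⟩
  have hlin : ∀ s : ℂ, HasDerivAt (fun s : ℂ => x + 1 / (2 * N) + s / N) (1 / N) s := by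
    intro s
    have := ((hasDerivAt_id s).div_const (N : ℂ)).const_add (x + 1 / (2 * N))
    simpa using this
  have h := abp (S := (fun s : ℂ => x + 1 / (2 * N) + s / N) ⁻¹' St) (G := G) (P := P)
    (A := ‖bb (x + 1 / (2 * N))‖ + Real.pi / (2 * δ)) ?_ ?_ ?_ ?_ ?_ ?_
  · have e0 : G 0 = bb (x + 1 / (2 * N)) := by
      rw [hG]; simp
    have e1 : P (1 / 2) = N * LC (x + 1 / N) := by
      rw [hP]
      beta_reduce
      congr 2
      field_simp
      ring
    have e2 : P (-(1 / 2)) = N * LC x := by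
      rw [hP]
      beta_reduce
      congr 2
      field_simp
      ring
    have e3 : ∫ y in Set.Ioi (0:ℝ), kk G y = RI N (x + 1 / N) - RI N x := by
      unfold RI
      have hx : x ∈ St := ⟨h0, by have : 0 < 1 / (N : ℝ) := by positivity
                                  linarith⟩
      have hx1 : x + 1 / N ∈ St := by
        have e4 : (x + 1 / N).re = x.re + 1 / N := by
          have : (1 / N : ℂ) = ((1 / N : ℝ) : ℂ) := by push_cast; ring
          rw [this, Complex.add_re, Complex.ofReal_re]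
        unfold St
        rw [Set.mem_ofPred_eq, e4]
        have : 0 < 1 / (N : ℝ) := by positivity
        exact ⟨by linarith, h1⟩
      rw [← integral_sub (int_int hL hN hx1) (int_int hL hN hx)]
      refine integral_congr_ae (Filter.Eventually.of_forall fun t => ?_)
      beta_reduce
      unfold kk
      rw [hG]
      beta_reduce
      have f1 : x + 1 / (2 * N) + (1 / 2 + t * Complex.I) / N = x + 1 / N + Complex.I * t / N := by field_simp; ring
      have f2 : x + 1 / (2 * N) + (-(1 / 2) + t * Complex.I) / N = x + Complex.I * t / N := by field_simp; ring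
      have f3 : x + 1 / (2 * N) + (1 / 2 - t * Complex.I) / N = x + 1 / N - Complex.I * t / N := by field_simp; ring
      have f4 : x + 1 / (2 * N) + (-(1 / 2) - t * Complex.I) / N = x - Complex.I * t / N := by field_simp; ring
      rw [f1, f2, f3, f4]
      ring
    rw [e0, e1, e2, e3] at h
    exact h
  · exact St_open.preimage (by fun_prop)
  · intro s hs
    rw [hG]
    exact ((hL.2.2.2.1 _ hs).comp s (hlin s)).differentiableAt.differentiableWithinAt
  · intro s hs
    exact Sd_St hδ (hmem s hs)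
  · intro s hs
    rw [hP, hG]
    have := ((hL.1 _ hs).comp s (hlin s)).const_mul (N : ℂ)
    have h9 : (N : ℂ) * (bb (x + 1 / (2 * N) + s / N) * (1 / N)) = bb (x + 1 / (2 * N) + s / N) := by
      rw [mul_comm (bb _), ← mul_assoc, mul_one_div_cancel hNc, one_mul]
    beta_reduce at this
    rw [h9] at this
    exact this
  · positivity
  · intro s hs
    rw [hG]
    beta_reduce
    have hm0 : x + 1 / (2 * N) ∈ Sd δ := by
      have := hmem 0 (by simp)
      simpa using this
    have h2 := bb_lip hL hδ hm0 (hmem s hs)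
    have h3 : x + 1 / (2 * N) + s / N - (x + 1 / (2 * N)) = s / N := by ring
    rw [h3, norm_div, Complex.norm_natCast] at h2
    have h4 : ‖s‖ / N ≤ 1 + |s.im| := by
      have := Complex.norm_le_abs_re_add_abs_im s
      have h5 : ‖s‖ / N ≤ ‖s‖ := div_le_self (norm_nonneg _) hN1
      linarith
    have h5 := norm_sub_norm_le (bb (x + 1 / (2 * N) + s / N)) (bb (x + 1 / (2 * N)))
    have h6 : Real.pi / (2 * δ) * (‖s‖ / N) ≤ Real.pi / (2 * δ) * (1 + |s.im|) :=
      mul_le_mul_of_nonneg_left h4 (by positivity)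
    have h7 : ‖bb (x + 1 / (2 * N))‖ ≤ ‖bb (x + 1 / (2 * N))‖ * (1 + |s.im|) :=
      le_mul_of_one_le_right (norm_nonneg _) (by linarith [abs_nonneg s.im])
    rw [add_mul]
    linarith

end

theorem task_GAM : S_GAM := by
  intro hL
  refine ⟨fun N hN x hx => ?_, fun N hN x h0 h1 => ?_, fun δ hδ => ?_, fun N x hx => ?_⟩
  · have h1 := (hL.1 x hx).differentiableAt
    have h2 := RI_diff hL hN hx
    have h3 : DifferentiableAt ℂ (fun x => Complex.exp (N * LC x + Complex.I * RI N x)) x :=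
      ((h1.const_mul _).add (h2.const_mul _)).cexp
    exact h3.differentiableWithinAt
  · rw [Gm_eq, Gm_eq]
    have h2 := fe hL hN h0 h1
    have h3 : N * LC (x + 1 / N) + Complex.I * RI N (x + 1 / N) = bb (x + 1 / (2 * N)) + (N * LC x + Complex.I * RI N x) := by
      rw [h2]; ring
    rw [h3, Complex.exp_add]
    congr 1
    unfold bb
    rw [Complex.exp_log]
    refine mul_ne_zero two_ne_zero (sin_ne ?_)
    have hN0 : (0 : ℝ) < N := by exact_mod_cast hN
    have e1 : (1 / (2 * N) : ℂ) = ((1 / (2 * N) : ℝ) : ℂ) := by push_cast; ring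
    unfold St
    rw [Set.mem_ofPred_eq, e1, Complex.add_re, Complex.ofReal_re]
    have e2 : 0 < 1 / (2 * (N : ℝ)) := by positivity
    have e3 : 1 / (N : ℝ) = 1 / (2 * (N : ℝ)) + 1 / (2 * (N : ℝ)) := by field_simp; norm_num
    exact ⟨by linarith, by linarith⟩
  · refine ⟨Real.pi / δ * Real.exp (Real.pi / δ), fun N hN x h1 h2 => ?_⟩
    have hN1 : (1 : ℝ) ≤ N := by exact_mod_cast hN
    have hpi := Real.pi_pos
    have h3 := RI_bd hL hδ hN (x := x) ⟨h1, h2⟩
    have h4 : Gm N x * Complex.exp (-(N * LC x)) = Complex.exp (Complex.I * RI N x) := by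
      rw [Gm_eq, ← Complex.exp_add]
      congr 1
      ring
    rw [h4]
    have h5 := Complex.norm_exp_sub_sum_le_norm_mul_exp (Complex.I * RI N x) 1
    simp at h5
    have h6 : Real.pi / δ / N ≤ Real.pi / δ := div_le_self (by positivity) hN1
    refine h5.trans ?_
    calc ‖RI N x‖ * Real.exp ‖RI N x‖ ≤ (Real.pi / δ / N) * Real.exp (Real.pi / δ) := by
          apply mul_le_mul h3 (Real.exp_le_exp.2 (h3.trans h6)) (Real.exp_pos _).le (by positivity)
      _ = _ := by ring
  · rw [Gm_eq, Gm_eq, ← Complex.exp_add, RI_odd hL N hx, hL.2.1 x hx]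
    have : N * LC x + Complex.I * RI N x + (N * -LC x + Complex.I * -RI N x) = 0 := by ring
    rw [this, Complex.exp_zero]

end Pool.Agent.Q280.KN
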